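import Pool.Agent.TH716.TW.Defs

set_option autoImplicit false

namespace Pool.Agent.TH868.J1420

open Pool.Agent.TH716.TW
open NumberField
open scoped nonZeroDivisors

lemma mem_nz {S : Type} [CommRing S] [IsDedekindDomain S] {I : Ideal S} (h : I ≠ ⊥) :
    I ∈ (Ideal S)⁰ := mem_nonZeroDivisors_of_ne_zero h

lemma span_nz {S : Type} [CommRing S] [IsDedekindDomain S] {x : S} (h : x ≠ 0) :
    Ideal.span {x} ∈ (Ideal S)⁰ :=
  mem_nz (fun h' => h (Ideal.span_singleton_eq_bot.mp h'))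

/-- a homomorphism on the nonzero ideals which kills the principal ideals factors through the
class group -/
theorem exists_lift {S : Type} [CommRing S] [IsDedekindDomain S] {G : Type} [CommGroup G]
    (f : (Ideal S)⁰ →* G) (hf : ∀ (x : S) (hx : x ≠ 0), f ⟨Ideal.span {x}, span_nz hx⟩ = 1) :
    ∃ F : ClassGroup S →* G, ∀ I, F (ClassGroup.mk0 I) = f I := by
  have key : ∀ I J : (Ideal S)⁰, ClassGroup.mk0 I = ClassGroup.mk0 J → f I = f J := by
    intro I J h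
    obtain ⟨x, y, hx, hy, e⟩ := ClassGroup.mk0_eq_mk0_iff.mp h
    have e' : (⟨Ideal.span {x}, span_nz hx⟩ : (Ideal S)⁰) * I =
        ⟨Ideal.span {y}, span_nz hy⟩ * J := Subtype.ext e
    have e2 := congrArg f e'
    rw [map_mul, map_mul, hf x hx, hf y hy, one_mul, one_mul] at e2
    exact e2
  choose g hg using (ClassGroup.mk0_surjective (R := S))
  refine ⟨⟨⟨fun c => f (g c), ?_⟩, ?_⟩, ?_⟩
  · have := key (g 1) 1 (by rw [hg, map_one])
    rw [this, map_one]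
  · intro a b
    change f (g (a * b)) = f (g a) * f (g b)
    rw [← map_mul]
    exact key _ _ (by rw [hg, map_mul, hg, hg])
  · intro I
    exact key _ _ (hg _)

/-- the homomorphism on nonzero ideals given by a multiplicative map -/
noncomputable def homI {S R : Type} [CommRing S] [IsDedekindDomain S] [CommRing R]
    [IsDedekindDomain R] (f : Ideal S →* Ideal R) (h0 : ∀ I, I ≠ ⊥ → f I ≠ ⊥) :
    (Ideal S)⁰ →* (Ideal R)⁰ where
  toFun I := ⟨f I.1, mem_nz (h0 I.1 (nonZeroDivisors.ne_zero I.2))⟩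
  map_one' := Subtype.ext (map_one f)
  map_mul' I J := Subtype.ext (map_mul f I.1 J.1)

theorem exists_lift2 {S R : Type} [CommRing S] [IsDedekindDomain S] [CommRing R]
    [IsDedekindDomain R] (f : Ideal S →* Ideal R) (h0 : ∀ I, I ≠ ⊥ → f I ≠ ⊥)
    (hf : ∀ x : S, ∃ y : R, f (Ideal.span {x}) = Ideal.span {y}) :
    ∃ F : ClassGroup S →* ClassGroup R, ∀ (I : Ideal S) (h : I ≠ ⊥),
      F (ClassGroup.mk0 ⟨I, mem_nz h⟩) = ClassGroup.mk0 ⟨f I, mem_nz (h0 I h)⟩ := by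
  obtain ⟨F, hF⟩ := exists_lift (ClassGroup.mk0.comp (homI f h0)) (by
    intro x hx
    obtain ⟨y, hy⟩ := hf x
    change ClassGroup.mk0 ⟨f (Ideal.span {x}), _⟩ = 1
    rw [ClassGroup.mk0_eq_one_iff]
    rw [hy]
    exact ⟨⟨y, rfl⟩⟩)
  exact ⟨F, fun I h => hF ⟨I, mem_nz h⟩⟩

/-- the counting argument -/
theorem grp {A B : Type} [CommGroup A] [CommGroup B] [Finite A] [Finite B] (N : A →* B)
    (s : A →* A) (j : B →* A) (hN : Function.Surjective N) (hNs : ∀ c, N (s c) = N c)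
    (hk : ∀ c, c = s c → c ∈ j.range) (a : A) (ha : N a = 1) : ∃ b, a * s b = b := by
  let δ : A →* A :=
    { toFun := fun c => c / s c
      map_one' := by simp
      map_mul' := fun a b => by
        rw [map_mul, mul_div_mul_comm] }
  have hδ : ∀ c, δ c = c / s c := fun c => rfl
  have hkδ : δ.ker ≤ j.range := by
    intro c hc
    rw [MonoidHom.mem_ker, hδ, div_eq_one] at hc
    exact hk c hc
  have hrδ : δ.range ≤ N.ker := by
    rintro _ ⟨c, rfl⟩
    rw [MonoidHom.mem_ker, hδ, map_div, hNs, div_self']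
  have hcard : Nat.card N.ker ≤ Nat.card δ.range := by
    have h1 : Nat.card A = Nat.card N.ker * Nat.card B := by
      have h := Subgroup.card_mul_index N.ker
      rw [Subgroup.index_ker, MonoidHom.range_eq_top.mpr hN, Subgroup.card_top] at h
      exact h.symm
    have h2 : Nat.card A = Nat.card δ.ker * Nat.card δ.range := by
      have h := Subgroup.card_mul_index δ.ker
      rw [Subgroup.index_ker] at h
      exact h.symm
    have h3 : Nat.card δ.ker ≤ Nat.card B := by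
      calc Nat.card δ.ker ≤ Nat.card j.range := Subgroup.card_le_of_le hkδ
        _ ≤ Nat.card B := by
            exact Nat.card_le_card_of_surjective j.rangeRestrict j.rangeRestrict_surjective
    have h4 : 0 < Nat.card B := Nat.card_pos
    have h5 : Nat.card N.ker * Nat.card B ≤ Nat.card δ.range * Nat.card B := by
      rw [← h1, h2, mul_comm]
      exact Nat.mul_le_mul_left _ h3
    exact Nat.le_of_mul_le_mul_right h5 h4
  have heq : δ.range = N.ker := Subgroup.eq_of_le_of_card_ge hrδ hcard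
  have hAk : a ∈ N.ker := ha
  rw [← heq] at hAk
  obtain ⟨b, hb⟩ := hAk
  rw [hδ] at hb
  exact ⟨b, by rw [← hb, div_mul_cancel]⟩

/-- the argument for two Dedekind domains -/
theorem main {R S : Type} [CommRing R] [IsDedekindDomain R] [CommRing S] [IsDedekindDomain S]
    [Finite (ClassGroup R)] [Finite (ClassGroup S)]
    (fN : Ideal S →* Ideal R) (fs : Ideal S →* Ideal S) (fj : Ideal R →* Ideal S)
    (hN0 : ∀ I, I ≠ ⊥ → fN I ≠ ⊥) (hs0 : ∀ I, I ≠ ⊥ → fs I ≠ ⊥) (hj0 : ∀ I, I ≠ ⊥ → fj I ≠ ⊥)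
    (hN1 : ∀ x : S, ∃ y : R, fN (Ideal.span {x}) = Ideal.span {y})
    (hs1 : ∀ x : S, ∃ y : S, fs (Ideal.span {x}) = Ideal.span {y})
    (hj1 : ∀ x : R, ∃ y : S, fj (Ideal.span {x}) = Ideal.span {y})
    (hinv : ∀ I, fN (fs I) = fN I)
    (hsurj : ∀ D : Ideal R, D ≠ ⊥ → ∃ (C : Ideal S) (x y : R), C ≠ ⊥ ∧ x ≠ 0 ∧ y ≠ 0 ∧
      Ideal.span {x} * D = Ideal.span {y} * fN C)
    (hamb : ∀ C : Ideal S, C ≠ ⊥ → ∀ x y : S, x ≠ 0 → y ≠ 0 →
      Ideal.span {x} * C = Ideal.span {y} * fs C →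
      ∃ (D : Ideal R) (u w : S), D ≠ ⊥ ∧ u ≠ 0 ∧ w ≠ 0 ∧
      Ideal.span {u} * C = Ideal.span {w} * fj D)
    (A : Ideal S) (hA0 : A ≠ ⊥) (m : R) (hA : fN A = Ideal.span {m}) :
    ∃ (B : Ideal S) (x y : S), B ≠ ⊥ ∧ x ≠ 0 ∧ y ≠ 0 ∧
      Ideal.span {x} * A * fs B = Ideal.span {y} * B := by
  obtain ⟨N, hN⟩ := exists_lift2 fN hN0 hN1
  obtain ⟨s, hs⟩ := exists_lift2 fs hs0 hs1
  obtain ⟨j, hj⟩ := exists_lift2 fj hj0 hj1
  have hrep : ∀ c : ClassGroup S, ∃ (C : Ideal S) (h : C ≠ ⊥),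
      c = ClassGroup.mk0 ⟨C, mem_nz h⟩ := by
    intro c
    obtain ⟨I, hI⟩ := ClassGroup.mk0_surjective c
    exact ⟨I.1, nonZeroDivisors.ne_zero I.2, hI.symm⟩
  have key2 : ∃ b, ClassGroup.mk0 ⟨A, mem_nz hA0⟩ * s b = b := by
    refine grp N s j ?_ ?_ ?_ (ClassGroup.mk0 ⟨A, mem_nz hA0⟩) ?_
    · -- the norm is surjective
      intro d
      obtain ⟨I, rfl⟩ := ClassGroup.mk0_surjective d
      obtain ⟨C, x, y, hC, hx, hy, e⟩ := hsurj I.1 (nonZeroDivisors.ne_zero I.2)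
      refine ⟨ClassGroup.mk0 ⟨C, mem_nz hC⟩, ?_⟩
      rw [hN C hC]
      symm
      apply ClassGroup.mk0_eq_mk0_iff.mpr
      exact ⟨x, y, hx, hy, e⟩
    · -- the norm is invariant
      intro c
      obtain ⟨C, hC, rfl⟩ := hrep c
      rw [hs C hC, hN C hC, hN _ (hs0 C hC)]
      congr 1
      exact Subtype.ext (hinv C)
    · -- kernel
      intro c hc
      obtain ⟨C, hC, rfl⟩ := hrep c
      rw [hs C hC] at hc
      obtain ⟨x, y, hx, hy, e⟩ := ClassGroup.mk0_eq_mk0_iff.mp hc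
      obtain ⟨D, u, w, hD, hu, hw, e2⟩ := hamb C hC x y hx hy e
      refine ⟨ClassGroup.mk0 ⟨D, mem_nz hD⟩, ?_⟩
      rw [hj D hD]
      symm
      apply ClassGroup.mk0_eq_mk0_iff.mpr
      exact ⟨u, w, hu, hw, e2⟩
    · -- the class of `A`
      rw [hN A hA0, ClassGroup.mk0_eq_one_iff]
      change (fN A).IsPrincipal
      rw [hA]
      exact ⟨⟨m, rfl⟩⟩
  obtain ⟨b, hb⟩ := key2
  obtain ⟨B, hB, rfl⟩ := hrep b
  rw [hs B hB, ← map_mul] at hb
  obtain ⟨x, y, hx, hy, e⟩ := ClassGroup.mk0_eq_mk0_iff.mp hb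
  refine ⟨B, x, y, hB, hx, hy, ?_⟩
  rw [mul_assoc]
  exact e

theorem result (ha : S_aut) (hamb : S_amb) (hs : S_surj) : S_genus := by
  intro K M _ _ _ _ _ θ hsit σ hσ A m hm hA
  classical
  have hM : Module.finrank K M = 3 := hsit.three
  have hA0 : A ≠ ⊥ := by
    intro h
    rw [h, Ideal.relNorm_bot] at hA
    exact hm (Ideal.span_singleton_eq_bot.mp hA.symm)
  have hinjσ : Function.Injective (σ : 𝓞 M →+* 𝓞 M) := σ.injective
  have hinjK : Function.Injective (algebraMap (𝓞 K) (𝓞 M)) :=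
    FaithfulSMul.algebraMap_injective (𝓞 K) (𝓞 M)
  exact main ((Ideal.relNorm (𝓞 K) : Ideal (𝓞 M) →*₀ Ideal (𝓞 K)) :
      Ideal (𝓞 M) →* Ideal (𝓞 K))
    (Ideal.mapHom (σ : 𝓞 M →+* 𝓞 M) : Ideal (𝓞 M) →* Ideal (𝓞 M))
    (Ideal.mapHom (algebraMap (𝓞 K) (𝓞 M)) : Ideal (𝓞 K) →* Ideal (𝓞 M))
    (fun I h h' => h (Ideal.relNorm_eq_bot_iff.mp h'))
    (fun I h h' => h (by
      have := (Ideal.map_eq_bot_iff_of_injective hinjσ).mp h'
      exact this))
    (fun I h h' => h (by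
      have := (Ideal.map_eq_bot_iff_of_injective hinjK).mp h'
      exact this))
    (fun x => ⟨_, Ideal.relNorm_singleton (𝓞 K) x⟩)
    (fun x => ⟨(σ : 𝓞 M →+* 𝓞 M) x, by simp [Ideal.mapHom, Ideal.map_span]⟩)
    (fun x => ⟨algebraMap (𝓞 K) (𝓞 M) x, by simp [Ideal.mapHom, Ideal.map_span]⟩)
    (fun I => Ideal.relNorm_map_algEquiv σ I)
    (fun D hD => hs K M θ hsit D hD)
    (fun C hC x y hx hy e => hamb K M θ hsit σ hσ C hC x y hx hy e)
    A hA0 m hA

end Pool.Agent.TH868.J1420
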