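import Pool.Agent.TH716.TW.Defs

set_option autoImplicit false

namespace Pool.Agent.TH868.J1421

open Pool.Agent.TH716.TW
open NumberField
open scoped nonZeroDivisors

/-! ### units of an imaginary quadratic field -/

lemma rank_zero (K : Type) [Field K] [NumberField K] (h2 : Module.finrank ℚ K = 2)
    (hcx : IsEmpty (K →+* ℝ)) : NumberField.Units.rank K = 0 := by
  classical
  have h1 := InfinitePlace.card_add_two_mul_card_eq_rank K
  have h0 : InfinitePlace.nrRealPlaces K = 0 := by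
    rw [InfinitePlace.nrRealPlaces, Fintype.card_eq_zero_iff]
    exact ⟨fun w => hcx.elim (InfinitePlace.embedding_of_isReal w.2)⟩
  have h3 := InfinitePlace.card_eq_nrRealPlaces_add_nrComplexPlaces K
  rw [NumberField.Units.rank]
  omega

lemma unit_tors (K : Type) [Field K] [NumberField K] (h2 : Module.finrank ℚ K = 2)
    (hcx : IsEmpty (K →+* ℝ)) (u : (𝓞 K)ˣ) : u ∈ NumberField.Units.torsion K := by
  obtain ⟨⟨ζ, e⟩, h, -⟩ := NumberField.Units.exist_unique_eq_mul_prod K u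
  have hr := rank_zero K h2 hcx
  have : IsEmpty (Fin (NumberField.Units.rank K)) := by
    rw [hr]; infer_instance
  simp only [Finset.univ_eq_empty, Finset.prod_empty, mul_one] at h
  rw [h]
  exact ζ.2

/-- a unit `z` cannot divide `7` with `z (5 - z) = 7` -/
lemma no_unit (K : Type) [Field K] [NumberField K] (h2 : Module.finrank ℚ K = 2)
    (hcx : IsEmpty (K →+* ℝ)) (z : 𝓞 K) (hz : IsUnit z) (h : z * (5 - z) = 7) : False := by
  obtain ⟨u, rfl⟩ := hz
  have ht := unit_tors K h2 hcx u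
  obtain ⟨w⟩ : Nonempty (InfinitePlace K) := inferInstance
  have h1 := (NumberField.Units.mem_torsion K).mp ht w
  have e1 : ‖w.embedding ((u : 𝓞 K) : K)‖ = 1 := by
    rw [InfinitePlace.norm_embedding_eq]
    exact h1
  have e2 : w.embedding ((u : 𝓞 K) : K) * (5 - w.embedding ((u : 𝓞 K) : K)) = 7 := by
    have := congrArg (w.embedding.comp (algebraMap (𝓞 K) K)) h
    rw [map_mul, map_sub, map_ofNat, map_ofNat] at this
    exact this
  have e3 := congrArg norm e2
  rw [norm_mul, e1, one_mul] at e3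
  have e4 : ‖(5 : ℂ) - w.embedding ((u : 𝓞 K) : K)‖ ≤ 5 + 1 := by
    calc _ ≤ ‖(5 : ℂ)‖ + ‖w.embedding ((u : 𝓞 K) : K)‖ := norm_sub_le _ _
      _ = 5 + 1 := by rw [e1]; norm_num
  have e5 : ‖(7 : ℂ)‖ = 7 := by norm_num
  rw [e3, e5] at e4
  norm_num at e4

lemma no_cube_root (K : Type) [Field K] [NumberField K] (h2 : Module.finrank ℚ K = 2)
    (hcx : IsEmpty (K →+* ℝ)) (hram : ∃ p : Ideal (𝓞 K), p ^ 2 = Ideal.span {7})
    (w : 𝓞 K) (h : w ^ 2 + w + 1 = 0) : False := by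
  obtain ⟨p, hp⟩ := hram
  have h7 : Ideal.absNorm p ^ 2 = 7 ^ 2 := by
    rw [← map_pow, hp, Ideal.absNorm_span_singleton]
    have : (7 : 𝓞 K) = algebraMap ℤ (𝓞 K) 7 := by simp
    rw [this, Algebra.norm_algebraMap, RingOfIntegers.rank, h2]
    norm_num
  have hn : Ideal.absNorm p = 7 := by
    exact Nat.pow_left_injective (n := 2) (by norm_num) h7
  have hirr : Irreducible p := Ideal.irreducible_of_irreducible_absNorm (by
    rw [hn]; exact (Nat.prime_iff.mp (by norm_num)).irreducible)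
  have hprime : Prime p := UniqueFactorizationMonoid.irreducible_iff_prime.mp hirr
  set a : Ideal (𝓞 K) := Ideal.span {3 + w} with ha
  set b : Ideal (𝓞 K) := Ideal.span {2 - w} with hb
  have hab : a * b = p ^ 2 := by
    rw [ha, hb, Ideal.span_singleton_mul_span_singleton, hp]
    congr 2
    linear_combination (-1 : 𝓞 K) * h
  have hcop : a ⊔ b = ⊤ := by
    rw [Ideal.eq_top_iff_one]
    have h3 : (3 + w) + (2 - w) ∈ a ⊔ b :=
      Ideal.add_mem _ (Ideal.mem_sup_left (Ideal.mem_span_singleton_self _))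
        (Ideal.mem_sup_right (Ideal.mem_span_singleton_self _))
    have h4 : (3 + w) * (2 - w) ∈ a ⊔ b :=
      Ideal.mul_mem_right _ _ (Ideal.mem_sup_left (Ideal.mem_span_singleton_self _))
    have h5 : (1 : 𝓞 K) = 3 * ((3 + w) * (2 - w)) - 4 * ((3 + w) + (2 - w)) := by
      linear_combination (3 : 𝓞 K) * h
    rw [h5]
    exact Ideal.sub_mem _ (Ideal.mul_mem_left _ _ h4) (Ideal.mul_mem_left _ _ h3)
  have hpt : p ≠ ⊤ := by
    intro h'
    rw [h', Ideal.absNorm_top] at hn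
    norm_num at hn
  have ha2 : a ∣ p ^ 2 := ⟨b, hab.symm⟩
  have hb2 : b ∣ p ^ 2 := ⟨a, by rw [mul_comm, hab]⟩
  obtain ⟨i, hi, hai⟩ := (dvd_prime_pow hprime 2).mp ha2
  obtain ⟨j, hj, hbj⟩ := (dvd_prime_pow hprime 2).mp hb2
  rw [associated_iff_eq] at hai hbj
  have hij : i = 0 ∨ j = 0 := by
    by_contra hne
    push Not at hne
    have h8 : a ≤ p := by rw [hai]; exact Ideal.pow_le_self hne.1
    have h9 : b ≤ p := by rw [hbj]; exact Ideal.pow_le_self hne.2
    exact hpt (top_le_iff.mp (hcop ▸ sup_le h8 h9))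
  rcases hij with rfl | rfl
  · rw [pow_zero, Ideal.one_eq_top, ha, Ideal.span_singleton_eq_top] at hai
    exact no_unit K h2 hcx (3 + w) hai (by linear_combination (-1 : 𝓞 K) * h)
  · rw [pow_zero, Ideal.one_eq_top, hb, Ideal.span_singleton_eq_top] at hbj
    exact no_unit K h2 hcx (2 - w) hbj (by linear_combination (-1 : 𝓞 K) * h)

/-- every unit is a cube -/
lemma unit_cube (K : Type) [Field K] [NumberField K] (h2 : Module.finrank ℚ K = 2)
    (hcx : IsEmpty (K →+* ℝ)) (hram : ∃ p : Ideal (𝓞 K), p ^ 2 = Ideal.span {7})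
    (u : (𝓞 K)ˣ) : ∃ v : (𝓞 K)ˣ, v ^ 3 = u := by
  have hc : (Nat.card (NumberField.Units.torsion K)).Coprime 3 := by
    rw [Nat.coprime_comm]
    refine (Nat.Prime.coprime_iff_not_dvd Nat.prime_three).mpr fun h3 => ?_
    have : Fact (Nat.Prime 3) := ⟨Nat.prime_three⟩
    obtain ⟨ζ, hζ⟩ := exists_prime_orderOf_dvd_card' 3 h3
    have h31 : ζ ^ 3 = 1 := by rw [← hζ]; exact pow_orderOf_eq_one ζ
    have hne : ζ ≠ 1 := by
      intro h; rw [h, orderOf_one] at hζ; norm_num at hζ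
    have e1 : ((ζ : (𝓞 K)ˣ) : 𝓞 K) ^ 3 = 1 := by
      have := congrArg (fun t : NumberField.Units.torsion K => ((t : (𝓞 K)ˣ) : 𝓞 K)) h31
      simpa using this
    have e2 : ((ζ : (𝓞 K)ˣ) : 𝓞 K) ≠ 1 := by
      intro h
      exact hne (Subtype.ext (Units.ext h))
    have e3 : (((ζ : (𝓞 K)ˣ) : 𝓞 K) - 1) *
        (((ζ : (𝓞 K)ˣ) : 𝓞 K) ^ 2 + ((ζ : (𝓞 K)ˣ) : 𝓞 K) + 1) = 0 := by
      linear_combination e1
    rcases mul_eq_zero.mp e3 with h | h
    · exact e2 (sub_eq_zero.mp h)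
    · exact no_cube_root K h2 hcx hram _ h
  have hb := (powCoprime hc).bijective
  obtain ⟨v, hv⟩ := hb.2 ⟨u, unit_tors K h2 hcx u⟩
  refine ⟨v, ?_⟩
  have := congrArg (fun t : NumberField.Units.torsion K => (t : (𝓞 K)ˣ)) hv
  simpa using this

lemma norm_div' {K M : Type} [Field K] [Field M] [Algebra K M] [FiniteDimensional K M]
    (y z : M) (hz : z ≠ 0) : Algebra.norm K (y / z) = Algebra.norm K y / Algebra.norm K z := by
  have h0 : Algebra.norm K z ≠ 0 := Algebra.norm_ne_zero_iff.mpr hz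
  rw [eq_div_iff h0, ← map_mul, div_mul_cancel₀ _ hz]

open scoped Classical in
theorem result (ha : S_aut) (hi : S_idnorm) (hg : S_genus) : S_HNT := by
  intro K M _ _ _ _ _ θ hsit m hm hcount
  obtain ⟨τ, σ, hτσ, hσ, hτ3, hnorm⟩ := ha K M θ hsit
  -- an integral multiple
  obtain ⟨a, b, hb, hab⟩ := IsFractionRing.div_surjective (A := 𝓞 K) m
  have hb0 : b ≠ 0 := nonZeroDivisors.ne_zero hb
  have hbK : (algebraMap (𝓞 K) K b) ≠ 0 := by
    intro h
    exact hb0 ((map_eq_zero_iff _ (FaithfulSMul.algebraMap_injective (𝓞 K) K)).mp h)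
  have ha0 : a ≠ 0 := by
    rintro rfl
    rw [map_zero, zero_div] at hab
    exact hm hab.symm
  set m' : 𝓞 K := a * b ^ 2 with hm'
  have hm'0 : m' ≠ 0 := mul_ne_zero ha0 (pow_ne_zero 2 hb0)
  have hm'K : algebraMap (𝓞 K) K m' = m * (algebraMap (𝓞 K) K b) ^ 3 := by
    rw [← hab, hm', map_mul, map_pow]
    field_simp
  -- the ideal is a norm
  obtain ⟨J, hJ, hJn⟩ := hi K M θ hsit (Ideal.span {m'})
    (fun h => hm'0 (Ideal.span_singleton_eq_bot.mp h)) (by
    intro v hv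
    have h1 := hcount v hv
    have hI0 : (Ideal.span {m'} : Ideal (𝓞 K)) ≠ 0 :=
      fun h => hm'0 (Ideal.span_singleton_eq_bot.mp h)
    have h2 := FractionalIdeal.count_coe K v hI0
    rw [FractionalIdeal.coeIdeal_span_singleton, hm'K,
      ← FractionalIdeal.spanSingleton_mul_spanSingleton, ← FractionalIdeal.spanSingleton_pow,
      FractionalIdeal.count_mul, FractionalIdeal.count_pow] at h2
    · have h3 : (3 : ℤ) ∣
          (((Associates.mk v.asIdeal).count (Associates.mk (Ideal.span {m'})).factors : ℕ) : ℤ) := by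
        rw [← h2]
        exact dvd_add h1 (Dvd.intro _ rfl)
      exact_mod_cast h3
    · exact FractionalIdeal.spanSingleton_ne_zero_iff.mpr hm
    · exact pow_ne_zero 3 (FractionalIdeal.spanSingleton_ne_zero_iff.mpr hbK))
  -- the principal genus theorem
  obtain ⟨B, x, y, hB, hx, hy, hxy⟩ := hg K M θ hsit σ hσ J m' hm'0 hJn
  have h1 := congrArg (Ideal.relNorm (𝓞 K)) hxy
  have hBn : Ideal.relNorm (𝓞 K) (B.map (σ : 𝓞 M →+* 𝓞 M)) = Ideal.relNorm (𝓞 K) B :=
    Ideal.relNorm_map_algEquiv σ B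
  rw [map_mul, map_mul, map_mul, hBn, hJn, Ideal.relNorm_singleton, Ideal.relNorm_singleton,
    Ideal.span_singleton_mul_span_singleton] at h1
  have hB0 : Ideal.relNorm (𝓞 K) B ≠ 0 := fun h => hB (Ideal.relNorm_eq_bot_iff.mp h)
  have h2 := mul_right_cancel₀ hB0 h1
  rw [Ideal.span_singleton_eq_span_singleton] at h2
  obtain ⟨u, hu⟩ := h2
  obtain ⟨v, hv⟩ := unit_cube K hsit.two hsit.cx hsit.ram u
  -- conclusion
  have hNx : algebraMap (𝓞 K) K (Algebra.intNorm (𝓞 K) (𝓞 M) x) =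
      Algebra.norm K (algebraMap (𝓞 M) M x) := Algebra.algebraMap_intNorm (A := 𝓞 K) (K := K) (L := M) (B := 𝓞 M) x
  have hNy : algebraMap (𝓞 K) K (Algebra.intNorm (𝓞 K) (𝓞 M) y) =
      Algebra.norm K (algebraMap (𝓞 M) M y) := Algebra.algebraMap_intNorm (A := 𝓞 K) (K := K) (L := M) (B := 𝓞 M) y
  have hxM : algebraMap (𝓞 M) M x ≠ 0 := by
    intro h
    exact hx ((map_eq_zero_iff _ (FaithfulSMul.algebraMap_injective (𝓞 M) M)).mp h)
  have hvK : algebraMap (𝓞 K) K (v : 𝓞 K) ≠ 0 := by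
    intro h
    exact v.ne_zero ((map_eq_zero_iff _ (FaithfulSMul.algebraMap_injective (𝓞 K) K)).mp h)
  have hNx0 : Algebra.norm K (algebraMap (𝓞 M) M x) ≠ 0 := Algebra.norm_ne_zero_iff.mpr hxM
  refine ⟨algebraMap (𝓞 M) M y / (algebraMap (𝓞 M) M x *
    algebraMap K M (algebraMap (𝓞 K) K (v : 𝓞 K)) * algebraMap K M (algebraMap (𝓞 K) K b)), ?_⟩
  have hz0 : algebraMap (𝓞 M) M x *
    algebraMap K M (algebraMap (𝓞 K) K (v : 𝓞 K)) * algebraMap K M (algebraMap (𝓞 K) K b) ≠ 0 :=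
    mul_ne_zero (mul_ne_zero hxM ((map_ne_zero _).mpr hvK)) ((map_ne_zero _).mpr hbK)
  rw [norm_div' _ _ hz0, map_mul, map_mul, Algebra.norm_algebraMap, Algebra.norm_algebraMap,
    hsit.three]
  have h3 := congrArg (algebraMap (𝓞 K) K) hu
  rw [map_mul, map_mul, hNx, hNy, hm'K, ← hv, Units.val_pow_eq_pow_val, map_pow] at h3
  rw [← h3]
  field_simp

end Pool.Agent.TH868.J1421
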